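import Pool.Agent.H908.UA4

/-!
# Effective non-vanishing with exponent two for quotients of products of curves

Let `V = C 1 × ... × C r` be a product of smooth complex projective curves of arbitrary genera, `G` a
group of birational automorphisms of `V`, and `X` a projective manifold birational to `V / G`. One of
the following two conditions is assumed.

* (a) `G` is a finite group which permutes the factors, and its elements which map a factor `C i` to
  itself act on `C i` trivially or by an involution with rational quotient. For instance `V = C ^ r`
  and `G` is any group of permutations, or the `C i` are hyperelliptic and `G` consists of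
  permutations composed with hyperelliptic involutions.
* (b) the genera are at least two and the only automorphisms `≠ 1` of the curves `C i` are
  hyperelliptic involutions (general curves, isomorphic curves are allowed); `G` is **any** group of
  birational automorphisms of `V`.

The singularities of `V / G` are arbitrary: `G` may contain reflections and other elements of age less
than one.

The theorem: `K_X` is pseudo-effective if and only if the second plurigenus `P_2(X) = h⁰(X, 2 K_X)` is
not zero. So the non-vanishing conjecture holds for all these varieties, of every dimension, with the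
exponent two, and `P_2(X) = 0` implies that `X` is uniruled: this is the criterion of Castelnuovo and
Enriques for surfaces, with the exponent two instead of twelve. Moreover these conditions hold if and
only if `G` contains no reflection of a factor, and no block of involutive transpositions is larger
than the genus of its curves.

Proof of `P_2(X) ≠ 0`. Choose coordinates `W_i` of the curves, and linearly independent regular
differentials `f_n dW_i`, in a `G`-equivariant way (representatives of the orbits of the factors; the
stabilizers act on all the differentials of a factor by a sign). Let `ω` be the product over the blocks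
of the determinants `det (f_n (x_i)) dW_1 ∧ ... ∧ dW_b`. The group permutes the blocks, and the square
of `ω` is `G`-invariant (Gram determinants). `ω` itself is invariant under all the involutive
transpositions, so that its value on `G`-invariant vector fields, which has at most simple poles along
the fixed divisors, has an even order along them and is regular. At the other divisors over `V` with
nontrivial inertia the age of the generator is at least one. Hence `ω ^ 2` descends to a nonzero
regular form of weight two on `X`.
-/

set_option autoImplicit false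
set_option linter.overlappingInstances false

open FF IntermediateField
open Pool.Agent.W619.PQ (KodairaNeg IsUniruled IsDivisorial IsPluriForm RegularAt)
open Pool.Agent.W619.TW (IsPsef)
open Pool.Agent.Helper11K9.OD (regularForms)

namespace Pool.Agent.Results.MP_813db1_ag.BigenusCriterion

/-- The genus of the curve with the field of functions `F`: the dimension of the space of regular
differential forms. -/
noncomputable def genus (F : Type) [Field F] [Algebra ℂ F] : ℕ :=
  Module.finrank ℂ (regularForms F)

/-- The second plurigenus of the projective manifolds of dimension `n` with the field of functions `K`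
is zero: a form of weight two which is regular at all the prime divisors over `K` is zero. (The forms
are given by their values on `n` vector fields; `IsPluriForm ℂ K n 2 ω` says that `ω` is multiplied by
the square of the determinant under linear substitutions of the vector fields.) -/
def BigenusZero (K : Type) [Field K] [Algebra ℂ K] (n : ℕ) : Prop :=
  ∀ ω : (Fin n → Derivation ℂ K K) → K, IsPluriForm ℂ K n 2 ω →
    (∀ v : Place ℂ K, IsDivisorial v n → RegularAt v n ω) → ∀ D, ω D = 0

section

variable {L : Type} [Field L] [Algebra ℂ L] {r : ℕ}

/-- The group `G` permutes the factors. (`M i` is the field of functions of the factor `i`.) -/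
def PermutesFactors (M : Fin r → IntermediateField ℂ L) (G : Subgroup (L ≃ₐ[ℂ] L)) : Prop :=
  ∀ g ∈ G, ∀ i, ∃ j, ∀ z ∈ M i, g z ∈ M j

/-- An element of `G` which maps the factor `i` to itself acts on it trivially or by an involution
whose quotient is a rational curve, that is, the fixed field is `ℂ(t)` for some `t`. -/
def HyperellipticStabilizers (M : Fin r → IntermediateField ℂ L) (G : Subgroup (L ≃ₐ[ℂ] L)) :
    Prop :=
  ∀ g ∈ G, ∀ i, (∀ z ∈ M i, g z ∈ M i) → (∀ z ∈ M i, g z = z) ∨
    ((∀ z ∈ M i, g (g z) = z) ∧ ∃ t : M i, ∀ z : M i, g (z : L) = z ↔ z ∈ ℂ⟮t⟯)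

/-- The genera are at least two, and the automorphisms `≠ 1` of the factors are hyperelliptic
involutions. -/
def GeneralCurves (M : Fin r → IntermediateField ℂ L) : Prop :=
  (∀ i, 2 ≤ genus (M i)) ∧ ∀ i (s : M i ≃ₐ[ℂ] M i), s ≠ 1 →
    (∀ z, s (s z) = z) ∧ ∃ t : M i, ∀ z, s z = z ↔ z ∈ ℂ⟮t⟯

/-- `g` is a reflection of the factor `i`: it is an automorphism `g ≠ 1` which maps the factor `i`
to itself and is trivial on all the other factors. -/
def IsReflection (M : Fin r → IntermediateField ℂ L) (g : L ≃ₐ[ℂ] L) (i : Fin r) : Prop :=
  g ≠ 1 ∧ (∀ z ∈ M i, g z ∈ M i) ∧ ∀ l, l ≠ i → ∀ z ∈ M l, g z = z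

/-- `g` is an involutive transposition of the factors `i ≠ j`: it exchanges them, it is trivial on
all the other factors, and `g ^ 2 = 1`. -/
def IsTransposition (M : Fin r → IntermediateField ℂ L) (g : L ≃ₐ[ℂ] L) (i j : Fin r) : Prop :=
  i ≠ j ∧ (∀ z ∈ M i, g z ∈ M j) ∧ (∀ z ∈ M j, g z ∈ M i) ∧
    (∀ l, l ≠ i → l ≠ j → ∀ z ∈ M l, g z = z) ∧ ∀ z, g (g z) = z

/-- The block of the factor `i`: it consists of `i` and of the `j` such that `G` contains an
involutive transposition of `i` and `j`. -/
def block (M : Fin r → IntermediateField ℂ L) (G : Subgroup (L ≃ₐ[ℂ] L)) (i : Fin r) :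
    Set (Fin r) :=
  {j | j = i ∨ ∃ g ∈ G, IsTransposition M g i j}

end

/-- **Non-vanishing with exponent two.** Let `M i` (`i < r`) be the fields of functions of smooth
projective curves `C i`, and `L` the field of functions of their product `V`. Let `G` be a group of
birational automorphisms of `V`; assume that (a) `G` is finite, permutes the factors, and its
stabilizers act on the factors trivially or by involutions with rational quotient, or (b) the genera
are at least two and all automorphisms `≠ 1` of the `C i` are hyperelliptic involutions. Let `X` be a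
projective manifold birational to `V / G`; its field of functions is `fixedField G`. Then `K_X` is
pseudo-effective, `κ(X) ≥ 0`, `P_2(X) ≠ 0`, `X` is not uniruled, and (`G` contains no reflection of a
factor, and the block of each `C i` has at most as many elements as the genus of `C i`) are
equivalent. -/
theorem result {L : Type} [Field L] [Algebra ℂ L] {r : ℕ} (M : Fin r → IntermediateField ℂ L)
    (hess : ∀ i, Algebra.EssFiniteType ℂ (M i)) (htr : ∀ i, Algebra.trdeg ℂ (M i) = 1)
    (hL : Algebra.trdeg ℂ L = r) (hsup : (⨆ i, M i) = ⊤) (G : Subgroup (L ≃ₐ[ℂ] L))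
    (hG : (Finite G ∧ PermutesFactors M G ∧ HyperellipticStabilizers M G) ∨ GeneralCurves M) :
    [IsPsef ℂ (fixedField G) r (fun _ => False),
      ¬ KodairaNeg ℂ (fixedField G) r,
      ¬ BigenusZero (fixedField G) r,
      ¬ IsUniruled ℂ (fixedField G) r,
      (¬ ∃ g ∈ G, ∃ i, IsReflection M g i) ∧ ∀ i, (block M G i).ncard ≤ genus (M i)].TFAE := by
  obtain ⟨hfin, hperm, hst⟩ : Finite G ∧ PermutesFactors M G ∧ HyperellipticStabilizers M G := by
    rcases hG with h | ⟨h1, h2⟩
    · exact h
    · exact Pool.Agent.H908.UA.general_curves M hess htr hL hsup h1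
        (fun i s hs => ⟨hs, h2 i s hs⟩) G
  have h := Pool.Agent.H908.UA.main M hess htr hL hsup G hperm hst
  have h1 : (∃ g ∈ G, g ≠ 1 ∧ ∃ i, (∀ z ∈ M i, g z ∈ M i) ∧ ∀ l, l ≠ i → ∀ z ∈ M l, g z = z) ↔
      ∃ g ∈ G, ∃ i, IsReflection M g i := by
    constructor
    · rintro ⟨g, hg, hg1, i, h2⟩
      exact ⟨g, hg, i, hg1, h2⟩
    · rintro ⟨g, hg, i, hg1, h2⟩
      exact ⟨g, hg, hg1, i, h2⟩
  have h2 : ∀ i, Pool.Agent.H908.TA.bl M (fun _ => 1) G i = block M G i := by
    intro i
    ext j
    constructor
    · rintro (h3 | ⟨g, hg, ⟨a1, -, -, a2, a3, a4⟩, a5⟩)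
      · exact Or.inl h3
      · exact Or.inr ⟨g, hg, a1, a2, a3, a4, a5⟩
    · rintro (h3 | ⟨g, hg, a1, a2, a3, a4, a5⟩)
      · exact Or.inl h3
      · exact Or.inr ⟨g, hg, ⟨a1, rfl, rfl, a2, a3, a4⟩, a5⟩
  simp only [h2, h1] at h
  have e1 : BigenusZero (fixedField G) r ↔ KodairaNeg ℂ (fixedField G) r := h.out 0 1
  have e2 : KodairaNeg ℂ (fixedField G) r ↔ ¬ IsPsef ℂ (fixedField G) r (fun _ => False) :=
    h.out 1 2
  have e3 : IsUniruled ℂ (fixedField G) r ↔ KodairaNeg ℂ (fixedField G) r := h.out 3 1
  have e4 : ((∃ g ∈ G, ∃ i, IsReflection M g i) ∨
      ∃ i, Module.finrank ℂ (regularForms (M i)) < (block M G i).ncard) ↔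
      KodairaNeg ℂ (fixedField G) r := h.out 4 1
  have e5 : ((¬ ∃ g ∈ G, ∃ i, IsReflection M g i) ∧ ∀ i, (block M G i).ncard ≤ genus (M i)) ↔
      ¬ KodairaNeg ℂ (fixedField G) r := by
    rw [← e4, not_or]
    simp only [not_exists, not_lt]
    rfl
  tfae_have 1 ↔ 2 := by rw [e2, not_not]
  tfae_have 2 ↔ 3 := by rw [e1]
  tfae_have 2 ↔ 4 := by rw [e3]
  tfae_have 2 ↔ 5 := e5.symm
  tfae_finish

end Pool.Agent.Results.MP_813db1_ag.BigenusCriterion
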